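import Pool.Agent.helper6.MG.N

set_option autoImplicit false

/-!
# Multiply perfect numbers without very large powers of bounded primes (MP_5f35f4_nt)
-/

namespace Pool.Agent.Results.MP_5f35f4_nt.BoundedPrimePowers

open Finset

/-- For every `ε > 0` there are `κ > 0`, `w` and `n0` such that every multiply perfect number `n ≥ n0`,
`σ(n) = k n`, in which every prime `Q ≤ w` has exponent at most `κ log n / log log n`, satisfies
`k ≤ ∏_{p ≤ ε log n} p/(p-1)`, the product over primes. -/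
theorem result (ε : ℝ) (hε : 0 < ε) : ∃ (κ : ℝ) (w n0 : ℕ), 0 < κ ∧ ∀ n k : ℕ, n0 ≤ n →
    ArithmeticFunction.sigma 1 n = k * n →
      (∀ Q : ℕ, Q.Prime → Q ≤ w →
        (n.factorization Q : ℝ) ≤ κ * (Real.log n / Real.log (Real.log n))) →
      (k : ℝ) ≤ ∏ p ∈ (range (⌊ε * Real.log n⌋₊ + 1)).filter Nat.Prime, ((p : ℝ) / (p - 1)) :=
  Pool.Agent.helper6.MG.noLargeExp ε hε

end Pool.Agent.Results.MP_5f35f4_nt.BoundedPrimePowers
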