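import Pool.Agent.helper6.MG.Q

set_option autoImplicit false

/-!
# Gronwall's bound below the square root for multiply perfect numbers (MP_5f35f4_nt)
-/

namespace Pool.Agent.Results.MP_5f35f4_nt.GronwallHalf

open Finset

/-- There is `c > 0` such that every sufficiently large multiply perfect number `n`, `σ(n) = k n`, satisfies
`k ≤ ∏_{p ≤ (1/2 - c) log n} p/(p-1)`, the product over primes. (For arbitrary integers the corresponding
product is the one over the primes `p ≤ (1 + o(1)) log n`, and this is best possible.) -/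
theorem result : ∃ (c : ℝ) (n0 : ℕ), 0 < c ∧ ∀ n k : ℕ, n0 ≤ n →
    ArithmeticFunction.sigma 1 n = k * n →
      (k : ℝ) ≤ ∏ p ∈ (range (⌊(1 / 2 - c) * Real.log n⌋₊ + 1)).filter Nat.Prime,
        ((p : ℝ) / (p - 1)) :=
  Pool.Agent.helper6.MG.below_half

end Pool.Agent.Results.MP_5f35f4_nt.GronwallHalf
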