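import Pool.Agent.helper6.ME.F

set_option autoImplicit false

/-!
# The multiplier of a multiply perfect number against its largest exponent (MP_5f35f4_nt)
-/

namespace Pool.Agent.Results.MP_5f35f4_nt.LargestExponent

open Filter

/-- For every `ε > 0` there is `C` such that every multiply perfect number `n`, `σ(n) = k n`, satisfies
`k ≤ C (1 + E(n)) ^ (1 + ε)`, where `E(n)` is the largest exponent in the prime factorization of `n`.
Hence `σ(n)/n = o(log log n)` along the multiply perfect numbers with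
`E(n) ≤ (log log n) ^ (1 - δ)`, for every `0 < δ < 1`. -/
theorem result :
    (∀ ε : ℝ, 0 < ε → ∃ C : ℝ, 0 < C ∧ ∀ n k : ℕ, 0 < n →
      ArithmeticFunction.sigma 1 n = k * n →
        (k : ℝ) ≤ C * (1 + ((n.primeFactors.sup fun p => n.factorization p : ℕ) : ℝ)) ^ (1 + ε)) ∧
    ∀ δ : ℝ, 0 < δ → δ < 1 →
      (fun n : ℕ => (ArithmeticFunction.sigma 1 n : ℝ) / n)
        =o[atTop ⊓ 𝓟 {n : ℕ | (∃ k, ArithmeticFunction.sigma 1 n = k * n) ∧
          ((n.primeFactors.sup fun p => n.factorization p : ℕ) : ℝ) ≤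
            Real.log (Real.log n) ^ (1 - δ)}]
        fun n : ℕ => Real.log (Real.log n) :=
  ⟨Pool.Agent.helper6.ME.main, Pool.Agent.helper6.ME.little_o⟩

end Pool.Agent.Results.MP_5f35f4_nt.LargestExponent
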