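import Pool.Agent.helper20.MPN.F

set_option autoImplicit false

/-!
# The multiplier of multiply perfect numbers with small exponents (MP_5f35f4_nt)
-/

namespace Pool.Agent.Results.MP_5f35f4_nt.SmallExponents

open Pool.Agent.helper20.MPN Filter

/-- Let `A` be fixed. The multiplier `k` of a multiply perfect number `n` is at most
`K * log (2 + E + log k)` times the product of `p / (p - 1)` over the prime factors `p` of `n`
whose exponent plus one has no prime factor `≤ A`, where `E` is the largest exponent of `n`.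
Hence bounded exponents imply a bounded multiplier, and `σ(n)/n = o(log log n)` along the multiply
perfect numbers with `log (2 + E) = o(log log n)` for which that product is bounded. -/
theorem result (A : ℕ) :
    (∃ K : ℝ, 0 < K ∧ ∀ n k : ℕ, 0 < n → ArithmeticFunction.sigma 1 n = k * n →
      (k : ℝ) ≤ K * Real.log (2 + maxExp n + Real.log k) *
        ∏ p ∈ rough A n, ((p : ℝ) / (p - 1))) ∧
    (∃ B : ℕ, ∀ n k : ℕ, 0 < n → ArithmeticFunction.sigma 1 n = k * n →
      (∀ p, n.factorization p ≤ A) → k ≤ B) ∧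
    ∀ (B : ℝ) (T : Set ℕ),
      (∀ n ∈ T, 0 < n ∧ (∃ k, ArithmeticFunction.sigma 1 n = k * n) ∧
        ∏ p ∈ rough A n, ((p : ℝ) / (p - 1)) ≤ B) →
      (fun n : ℕ => Real.log (2 + maxExp n)) =o[atTop ⊓ 𝓟 T]
        (fun n : ℕ => Real.log (Real.log n)) →
      (fun n : ℕ => (ArithmeticFunction.sigma 1 n : ℝ) / n) =o[atTop ⊓ 𝓟 T]
        (fun n : ℕ => Real.log (Real.log n)) := by
  refine ⟨?_, bounded_exp A, little_o A⟩
  obtain ⟨K, hK, h⟩ := main A
  refine ⟨K, hK, fun n k hn hs => h n k hn ?_ hs⟩
  rcases Nat.eq_zero_or_pos k with hk0 | hk0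
  · rw [hk0, zero_mul, ArithmeticFunction.sigma_eq_zero] at hs
    omega
  · exact hk0

end Pool.Agent.Results.MP_5f35f4_nt.SmallExponents
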